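import Mathlib
import Pool.Agent.V11259.MemLadder

/-!
# MP_674d90: a safety condition with finite general and infinite chromatic memory

The condition is the ladder condition of `Pool.Agent.V11259.MemLadder`: the residuals form three
well-ordered chains (plus the full language), a letter switches between the two ladder chains
exactly at the levels that are squares, so that a finite chromatic memory cannot keep track of the
chain although a general memory can.
-/

namespace Pool.Agent.Results.MP_674d90_lc.SafetyLadder

open V11259.Mem

/-- `W` is a safety condition: for some set `P` of forbidden finite words, `W` consists of the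
sequences none of whose finite initial words `w 0, ..., w (n-1)` lies in `P`. -/
def IsSafety {C : Type} (W : Set (ℕ → C)) : Prop :=
  ∃ P : Set (List C), W = {w | ∀ n, (List.range n).map w ∉ P}

/-- **There are a finite set of colours and a safety condition `W` with `GenMem W < ∞` and
`ChrMem W = ∞`.** -/
theorem result : ∃ (C : Type) (_ : Finite C) (W : Set (ℕ → C)),
    IsSafety W ∧ genMem W < ⊤ ∧ chrMem W = ⊤ :=
  ⟨Col, inferInstance, ladder,
    ⟨{l | l.foldl δ (.lad false 0) = .bot}, rfl⟩, ladder_genMem, ladder_chrMem⟩

end Pool.Agent.Results.MP_674d90_lc.SafetyLadder
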